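import Mathlib

/-!
The two pursuit games of MP_0cd278_co: catching a robber of speed 2 on the board [n]^2, and
one-dimensional Rugby on the strip Z x [n].
-/

namespace Pool.Agent.Lib.P0cd

/-- A vertex: an integer point of the plane. -/
abbrev Pt := ℤ × ℤ

/-- The `l_∞` distance of `p` and `q` is at most `k`. -/
def Near (k : ℤ) (p q : Pt) : Prop := |q.1 - p.1| ≤ k ∧ |q.2 - p.2| ≤ k

/-- The board `[n]^2`. -/
def Square (n : ℕ) (p : Pt) : Prop := (1 ≤ p.1 ∧ p.1 ≤ n) ∧ (1 ≤ p.2 ∧ p.2 ≤ n)

/-- The board `ℤ × [n]`. -/
def Strip (n : ℕ) (p : Pt) : Prop := 1 ≤ p.2 ∧ p.2 ≤ n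

/-- A strategy of a team of cops indexed by `ι`: it tells, for the list of all positions of the
robber so far, where the cops stand after their next move (for the empty list: where they
start). -/
abbrev CopStrategy (ι : Type) := List Pt → ι → Pt

/-- The position of the cops at time `t` when the robber is at `r 0, r 1, r 2, …`.  Order of
events: the cops choose `copsAt S r 0`, the robber chooses `r 0`, the cops move to
`copsAt S r 1`, the robber moves to `r 1`, and so on. -/
def copsAt {ι : Type} (S : CopStrategy ι) (r : ℕ → Pt) (t : ℕ) : ι → Pt :=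
  S ((List.range t).map r)

/-- A legal sequence of positions of the robber of speed 2 on a board. -/
def RobberPath (board : Pt → Prop) (r : ℕ → Pt) : Prop :=
  (∀ t, board (r t)) ∧ ∀ t, Near 2 (r t) (r (t + 1))

/-- Against the robber `r` the strategy `S` keeps every cop on the board and moves every cop by
at most 1 in each turn. -/
def LegalAgainst {ι : Type} (board : Pt → Prop) (S : CopStrategy ι) (r : ℕ → Pt) : Prop :=
  (∀ t i, board (copsAt S r t i)) ∧ ∀ t i, Near 1 (copsAt S r t i) (copsAt S r (t + 1) i)

/-- At some moment (after a move of the robber or after a move of the cops) some cop is on the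
vertex of the robber. -/
def Caught {ι : Type} (S : CopStrategy ι) (r : ℕ → Pt) : Prop :=
  ∃ t i, copsAt S r t i = r t ∨ copsAt S r (t + 1) i = r t

/-- `m` cops have a winning strategy against the robber of speed 2 on `[n]^2`. -/
def CopsCatch (n m : ℕ) : Prop :=
  ∃ S : CopStrategy (Fin m), ∀ r, RobberPath (Square n) r →
    LegalAgainst (Square n) S r ∧ Caught S r

/-- `m` cops have a winning strategy in one-dimensional Rugby on `ℤ × [n]` when the robber starts
in row `y`: there are a strategy and a number `C` such that `-C` is at least `2n` smaller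
than the first coordinate of every cop at the start, and every robber who starts at `(-C, y)`
is caught or has bounded first coordinate. -/
def CopsWinRugbyFrom (n : ℕ) (y : ℤ) (m : ℕ) : Prop :=
  ∃ (S : CopStrategy (Fin m)) (C : ℤ), (∀ i, -C + 2 * n ≤ (S [] i).1) ∧
    ∀ r, RobberPath (Strip n) r → r 0 = (-C, y) →
      LegalAgainst (Strip n) S r ∧ (Caught S r ∨ ∃ k : ℤ, ∀ t, (r t).1 ≤ k)

end Pool.Agent.Lib.P0cd
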