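import Pool.Agent.Lib.P0cd.XTeam

/-!
From the team for the columns to the catch on the square board.
-/

namespace Pool.Agent.Lib.P0cd

open Filter

/-- A team indexed by `ι` catches every robber on `[n]^2`. -/
def TeamCatch (n : ℕ) (ι : Type) : Prop :=
  ∃ S : CopStrategy ι, ∀ r, RobberPath (Square n) r → LegalAgainst (Square n) S r ∧ Caught S r

lemma copsCatch_of_equiv {n m : ℕ} {ι : Type} (e : Fin m ≃ ι) (h : TeamCatch n ι) :
    CopsCatch n m := by
  obtain ⟨S, hS⟩ := h
  refine ⟨fun l i => S l (e i), fun r hr => ?_⟩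
  obtain ⟨h1, t, i, hi⟩ := hS r hr
  refine ⟨⟨fun t i => h1.1 t (e i), fun t i => h1.2 t (e i)⟩, t, e.symm i, ?_⟩
  have e1 : ∀ t, copsAt (fun l i => S l (e i)) r t (e.symm i) = copsAt S r t i := by
    intro t
    simp [copsAt]
  rw [e1, e1]
  exact hi

/-! ### Transposition -/

lemma swap_path {n : ℕ} {r : ℕ → Pt} (h : RobberPath (Square n) r) :
    RobberPath (Square n) (fun t => (r t).swap) :=
  ⟨fun t => ⟨(h.1 t).2, (h.1 t).1⟩, fun t => ⟨(h.2 t).2, (h.2 t).1⟩⟩

/-- The transposed strategy. -/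
def transp {ι : Type} (T : CopStrategy ι) : CopStrategy ι :=
  fun l i => (T (l.map Prod.swap) i).swap

lemma copsAt_transp {ι : Type} (T : CopStrategy ι) (r : ℕ → Pt) (t : ℕ) (i : ι) :
    copsAt (transp T) r t i = (copsAt T (fun t => (r t).swap) t i).swap := by
  simp only [copsAt, transp, List.map_map]
  rfl

lemma yteam {n N : ℕ} {y0 : ℤ} (hy : 1 ≤ y0 ∧ y0 ≤ n) (h : CopsWinRugbyFrom n y0 N) :
    ∃ T : CopStrategy (Fin 4 × Fin N), ∀ r, RobberPath (Square n) r →
      LegalAgainst (Square n) T r ∧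
        (Caught T r ∨ ∃ q : ℤ, ∀ᶠ t in atTop, (r t).2 = q) := by
  obtain ⟨T, hT⟩ := xteam hy h
  refine ⟨transp T, fun r hr => ?_⟩
  obtain ⟨h1, h2⟩ := hT _ (swap_path hr)
  refine ⟨⟨fun t i => ?_, fun t i => ?_⟩, ?_⟩
  · rw [copsAt_transp]
    exact ⟨(h1.1 t i).2, (h1.1 t i).1⟩
  · rw [copsAt_transp, copsAt_transp]
    exact ⟨(h1.2 t i).2, (h1.2 t i).1⟩
  · rcases h2 with ⟨t, i, hi⟩ | h2
    · left
      refine ⟨t, i, ?_⟩
      rw [copsAt_transp, copsAt_transp]
      rcases hi with hi | hi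
      · left; rw [hi]; rfl
      · right; rw [hi]; rfl
    · exact Or.inr h2

/-! ### The chaser -/

/-- One cop who always moves towards the robber. -/
def chaser : Machine Unit where
  State := Pt
  init := (1, 1)
  step s x := mvp s x
  out s _ := s

lemma chaser_legal {n : ℕ} {r : ℕ → Pt} (hr : RobberPath (Square n) r) :
    LegalAgainst (Square n) chaser.strategy r := by
  have h1 : ∀ t, Square n (chaser.run r t) := by
    intro t
    induction t with
    | zero =>
      have := hr.1 0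
      unfold Square at this
      refine ⟨⟨le_refl _, ?_⟩, ⟨le_refl _, ?_⟩⟩ <;> simp only [chaser, Machine.run] <;> omega
    | succ t ih => exact mvp_square ih (hr.1 t)
  refine ⟨fun t i => ?_, fun t i => ?_⟩
  · rw [Machine.copsAt_strategy]
    exact h1 t
  · rw [Machine.copsAt_strategy, Machine.copsAt_strategy]
    exact near_mvp _ _

lemma chaser_catch {r : ℕ → Pt} {q : Pt} (h : ∀ᶠ t in atTop, r t = q) :
    Caught chaser.strategy r := by
  obtain ⟨T, hT⟩ := eventually_atTop.1 h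
  have hmove : ∀ t, chaser.run r (T + (t + 1)) = mvp (chaser.run r (T + t)) q := by
    intro t
    rw [← add_assoc]
    change mvp (chaser.run r (T + t)) (r (T + t)) = _
    rw [hT (T + t) (by omega)]
  have key : ∀ (p : ℕ → ℤ) (a : ℤ), (∀ t, p (t + 1) = mv 1 (p t) a) →
      ∀ᶠ t in atTop, p t = a := by
    intro p a hp
    rw [eventually_atTop]
    refine ⟨(a - p 0).toNat + (p 0 - a).toNat + 1, fun t ht => ?_⟩
    rcases pursuit (k := 1) (p := p) (τ := fun _ => a) (by norm_num) hp (fun t => by simp) t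
      with h | ⟨h, h'⟩ | ⟨h, h'⟩
    · exact h
    · omega
    · omega
  have e1 := key (fun t => (chaser.run r (T + t)).1) q.1 (fun t => by rw [hmove]; rfl)
  have e2 := key (fun t => (chaser.run r (T + t)).2) q.2 (fun t => by rw [hmove]; rfl)
  obtain ⟨t, ht1, ht2⟩ := (e1.and e2).exists
  refine ⟨T + t, (), Or.inl ?_⟩
  rw [Machine.copsAt_strategy, hT (T + t) (by omega)]
  exact Prod.ext ht1 ht2

/-! ### Unions of teams -/

/-- Two teams together. -/
def both {ι κ : Type} (S : CopStrategy ι) (T : CopStrategy κ) : CopStrategy (ι ⊕ κ) :=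
  fun l => Sum.elim (S l) (T l)

lemma both_legal {ι κ : Type} {B : Pt → Prop} {S : CopStrategy ι} {T : CopStrategy κ}
    {r : ℕ → Pt} (hS : LegalAgainst B S r) (hT : LegalAgainst B T r) :
    LegalAgainst B (both S T) r := by
  refine ⟨fun t i => ?_, fun t i => ?_⟩
  · rcases i with i | i
    · exact hS.1 t i
    · exact hT.1 t i
  · rcases i with i | i
    · exact hS.2 t i
    · exact hT.2 t i

lemma both_left {ι κ : Type} {S : CopStrategy ι} {T : CopStrategy κ} {r : ℕ → Pt}
    (hS : Caught S r) : Caught (both S T) r := by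
  obtain ⟨t, i, hi⟩ := hS
  exact ⟨t, Sum.inl i, hi⟩

lemma both_right {ι κ : Type} {S : CopStrategy ι} {T : CopStrategy κ} {r : ℕ → Pt}
    (hT : Caught T r) : Caught (both S T) r := by
  obtain ⟨t, i, hi⟩ := hT
  exact ⟨t, Sum.inr i, hi⟩

/-- The main step: `m` cops who win Rugby on `ℤ × [n]` give `8 m + 1` cops who catch the robber on
`[n]^2`. -/
theorem catch_of_rugby {n m : ℕ} {y : ℤ} (hy : 1 ≤ y ∧ y ≤ n) (h : CopsWinRugbyFrom n y m) :
    CopsCatch n (8 * m + 1) := by
  obtain ⟨Tx, hx⟩ := xteam hy h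
  obtain ⟨Ty, hyt⟩ := yteam hy h
  have hteam : TeamCatch n (((Fin 4 × Fin m) ⊕ (Fin 4 × Fin m)) ⊕ Unit) := by
    refine ⟨both (both Tx Ty) chaser.strategy, fun r hr => ?_⟩
    obtain ⟨l1, c1⟩ := hx r hr
    obtain ⟨l2, c2⟩ := hyt r hr
    refine ⟨both_legal (both_legal l1 l2) (chaser_legal hr), ?_⟩
    rcases c1 with c1 | ⟨q1, h1⟩
    · exact both_left (both_left c1)
    rcases c2 with c2 | ⟨q2, h2⟩
    · exact both_left (both_right c2)
    refine both_right (chaser_catch (q := (q1, q2)) ?_)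
    filter_upwards [h1, h2] with t e1 e2
    exact Prod.ext e1 e2
  refine copsCatch_of_equiv (Fintype.equivFinOfCardEq ?_).symm hteam
  simp only [Fintype.card_sum, Fintype.card_prod, Fintype.card_fin, Fintype.card_unit]
  ring

/-- Two full columns of cops never let the robber pass. -/
theorem rugby_wall {n : ℕ} {y : ℤ} : CopsWinRugbyFrom n y (2 * n) := by
  have e : Fin (2 * n) ≃ Fin 2 × Fin n := finProdFinEquiv.symm
  refine ⟨fun _ i => (((e i).1 : ℕ), ((e i).2 : ℕ) + 1), 2 * n, fun i => by simp,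
    fun r hr h0 => ?_⟩
  have hcops : ∀ t i, copsAt (fun _ i => ((((e i).1 : ℕ) : ℤ), (((e i).2 : ℕ) : ℤ) + 1)) r t i =
      ((((e i).1 : ℕ) : ℤ), (((e i).2 : ℕ) : ℤ) + 1) := fun t i => rfl
  refine ⟨⟨fun t i => ?_, fun t i => ?_⟩, ?_⟩
  · rw [hcops]
    have := (e i).2.isLt
    refine ⟨?_, ?_⟩ <;> simp only <;> omega
  · rw [hcops, hcops]
    exact ⟨by simp, by simp⟩
  · by_cases hc : Caught (fun _ i => ((((e i).1 : ℕ) : ℤ), (((e i).2 : ℕ) : ℤ) + 1)) r
    · exact Or.inl hc
    · right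
      refine ⟨-1, fun t => ?_⟩
      induction t with
      | zero =>
        rw [h0]
        have := hr.1 0
        unfold Strip at this
        simp only
        omega
      | succ t ih =>
        by_contra hcon
        apply hc
        have h1 := abs_le.1 (hr.2 t).1
        have h2 := hr.1 (t + 1)
        unfold Strip at h2
        have h3 : 0 ≤ (r (t + 1)).1 ∧ (r (t + 1)).1 < 2 := by omega
        refine ⟨t + 1, e.symm (⟨(r (t + 1)).1.toNat, by omega⟩,
          ⟨((r (t + 1)).2 - 1).toNat, by omega⟩), Or.inl ?_⟩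
        rw [hcops, Equiv.apply_symm_apply]
        refine Prod.ext ?_ ?_ <;> simp only <;> omega

/-- Without cops the robber wins Rugby. -/
theorem rugby_zero {n : ℕ} {y : ℤ} (hy : 1 ≤ y ∧ y ≤ n) : ¬ CopsWinRugbyFrom n y 0 := by
  rintro ⟨S, C, -, hS⟩
  obtain ⟨-, h | ⟨k, hk⟩⟩ := hS (fun t => (-C + 2 * t, y)) ⟨fun t => hy, fun t => ⟨by
    rw [abs_le]; push_cast; constructor <;> omega, by simp⟩⟩ (by simp)
  · obtain ⟨t, i, -⟩ := h
    exact Fin.elim0 i
  · have := hk (k + C + 1).toNat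
    have h2 := hk 0
    simp only at this h2
    push_cast at h2
    omega

end Pool.Agent.Lib.P0cd
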