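import Pool.Agent.Lib.P0cd.Tools

/-!
The controller: one update keeps the invariant, moves the lifted robber by at most 2 and
increases the potential.
-/

namespace Pool.Agent.Lib.P0cd

variable {N : ℕ} {n : ℕ} {X : Fin N → Pt} {k : Ctl} {R x : ℤ} {pos : Fin 4 → Fin N → Pt}

lemma nxt_pos {q c : ℤ} (hc : 0 ≤ c) : 1 ≤ nxt q c := by unfold nxt; split_ifs <;> omega

lemma nxt_ne {q c : ℤ} : nxt q c ≠ q := by unfold nxt; split_ifs <;> omega

lemma lt_nxt {q c : ℤ} : c < nxt q c := by unfold nxt; split_ifs <;> omega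

lemma gain_inv (h : Inv n X k R pos) {b : ℤ} {a : Fin 4} (ha0 : a ≠ 0) (ha1 : a ≠ 1)
    (hb : b ≠ k.q) (hb1 : 1 ≤ b) (hrc : rc k a = cc k.q k.E b) (hin : Inpl n X k pos a)
    (hx : 1 ≤ x) : Inv n X (gain k b a) x pos := by
  refine ⟨⟨hb1, le_refl _, by simp only [gain]; omega, by simp only [gain]; omega⟩, ?_, ?_, ?_⟩
  · intro j
    by_cases hlt : k.q < b
    · have e1 : (gain k b a).π 0 = k.π 0 := by
        simp only [gain, hlt, if_true, Equiv.Perm.mul_apply]
        rw [Equiv.swap_apply_of_ne_of_ne (by decide) (Ne.symm ha0)]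
      have e2 : rc (gain k b a) 0 = rc k 0 := by
        simp only [gain, rc, Matrix.cons_val_zero, Prod.mk.injEq, and_true]
        rw [abs_of_pos (by omega)]; ring
      rw [e1, e2]; exact h.in0 j
    · have e1 : (gain k b a).π 0 = k.π a := by
        simp only [gain, hlt, if_false, Equiv.Perm.mul_apply, Equiv.swap_apply_left]
      have e2 : rc (gain k b a) 0 = rc k a := by
        rw [hrc]
        simp only [gain, rc, cc, sg, Matrix.cons_val_zero, Prod.mk.injEq, hlt, if_false]
        constructor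
        · ring
        · norm_num
      rw [e1, e2]; exact hin j
  · intro j
    by_cases hlt : k.q < b
    · have e1 : (gain k b a).π 1 = k.π a := by
        simp only [gain, hlt, if_true, Equiv.Perm.mul_apply, Equiv.swap_apply_left]
      have e2 : rc (gain k b a) 1 = rc k a := by
        rw [hrc]
        simp only [gain, rc, cc, sg, Matrix.cons_val_one, Matrix.cons_val_zero, Prod.mk.injEq,
          hlt, if_true]
        constructor
        · ring
        · norm_num
      rw [e1, e2]; exact hin j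
    · have e1 : (gain k b a).π 1 = k.π 1 := by
        simp only [gain, hlt, if_false, Equiv.Perm.mul_apply]
        rw [Equiv.swap_apply_of_ne_of_ne (by decide) (Ne.symm ha1)]
      have e2 : rc (gain k b a) 1 = rc k 1 := by
        simp only [gain, rc, Matrix.cons_val_one, Matrix.cons_val_zero, Prod.mk.injEq, and_true]
        rw [abs_of_neg (by omega)]; ring
      rw [e1, e2]; exact h.in1 j
  · intro h1
    simp only [gain] at h1
    omega

lemma upd_num (h : Num k R) (hx : 1 ≤ x) (P : Prop) : Num (upd k R x P) x := by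
  have hcR := h.cR
  have hc0 := h.c0
  unfold upd
  split_ifs with h1 h2 h3
  · refine ⟨h1.1, le_refl _, by simp only [gain]; omega, by simp only [gain]; omega⟩
  · have := nxt_pos (q := k.q) hc0
    refine ⟨this, le_refl _, by simp only [gain]; omega, by simp only [gain]; omega⟩
  · have := nxt_pos (q := k.q) hc0
    refine ⟨h.q1, ?_, h3.2, nxt_ne⟩
    simp only; omega
  · refine ⟨h.q1, h.c0, ?_, h.cq⟩
    by_contra hcon
    apply h1
    omega

lemma upd_inv (h : Inv n X k R pos) (hx : 1 ≤ x) :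
    Inv n X (upd k R x (Inpl n X k pos 3)) x pos := by
  have hnum := upd_num h.toNum hx (Inpl n X k pos 3)
  unfold upd at hnum ⊢
  split_ifs at hnum ⊢ with h1 h2 h3
  · exact gain_inv h (by decide) (by decide) h.cq h1.1 rfl (h.in2 h1.1) hx
  · exact gain_inv h (by decide) (by decide) nxt_ne (nxt_pos h.c0) rfl h2.1 hx
  · refine ⟨hnum, ?_, ?_, ?_⟩
    · intro j
      have := h.in0 j
      simpa [Inpl, rc, Equiv.Perm.mul_apply, Equiv.swap_apply_of_ne_of_ne] using this
    · intro j
      have := h.in1 j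
      simpa [Inpl, rc, Equiv.Perm.mul_apply, Equiv.swap_apply_of_ne_of_ne] using this
    · intro _ j
      have := h3.1 j
      simpa [Inpl, rc, Equiv.Perm.mul_apply] using this
  · exact ⟨hnum, h.in0, h.in1, h.in2⟩

lemma gain_dist (b : ℤ) (a : Fin 4) (hb : Btw R x b) (hxR : |x - R| ≤ 2) :
    |((gain k b a).E + |x - (gain k b a).q|) - (k.E + |R - k.q|)| ≤ 2 := by
  simp only [gain]
  unfold Btw at hb
  rw [abs_le] at hxR ⊢
  rcases abs_cases (b - k.q) with ⟨e1, _⟩ | ⟨e1, _⟩ <;>
  rcases abs_cases (x - b) with ⟨e2, _⟩ | ⟨e2, _⟩ <;>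
  rcases abs_cases (R - k.q) with ⟨e3, _⟩ | ⟨e3, _⟩ <;>
  rw [e1, e2, e3] <;> omega

lemma upd_dist (h : Num k R) (hxR : |x - R| ≤ 2) (P : Prop) :
    |((upd k R x P).E + |x - (upd k R x P).q|) - (k.E + |R - k.q|)| ≤ 2 := by
  have hcR := h.cR
  have key : |(k.E + |x - k.q|) - (k.E + |R - k.q|)| ≤ 2 := by
    rw [abs_le] at hxR ⊢
    rcases abs_cases (x - k.q) with ⟨e2, _⟩ | ⟨e2, _⟩ <;>
    rcases abs_cases (R - k.q) with ⟨e3, _⟩ | ⟨e3, _⟩ <;>
    rw [e2, e3] <;> omega
  unfold upd
  split_ifs with h1 h2 h3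
  · exact gain_dist _ _ (Or.inr ⟨h1.2, hcR.le⟩) hxR
  · exact gain_dist _ _ h2.2 hxR
  · exact key
  · exact key

/-- The potential of the controller. -/
def pot (n : ℕ) (k : Ctl) : ℤ := k.E * (n + 1) + k.c

lemma gain_pot (h : Num k R) (hR : R ≤ n) {b : ℤ} (a : Fin 4) (hb : b ≠ k.q) :
    pot n k < pot n (gain k b a) := by
  have h1 : 1 ≤ |b - k.q| := Int.one_le_abs (by omega)
  have hcR := h.cR
  have hc0 := h.c0
  simp only [pot, gain]
  nlinarith

lemma upd_pot (h : Num k R) (hR : R ≤ n) (P : Prop) :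
    upd k R x P = k ∨ pot n k < pot n (upd k R x P) := by
  unfold upd
  split_ifs with h1 h2 h3
  · exact Or.inr (gain_pot h hR _ h.cq)
  · exact Or.inr (gain_pot h hR _ nxt_ne)
  · right
    have := lt_nxt (q := k.q) (c := k.c)
    simp only [pot]
    omega
  · exact Or.inl rfl

lemma upd_stay (h : Num k R) {P : Prop} (hP : P) (hR : R ≤ n) (hx : 1 ≤ x)
    (hs : upd k R x P = k) : x = k.q := by
  have hc0 := h.c0
  have hcR := h.cR
  unfold upd at hs
  split_ifs at hs with h1 h2 h3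
  · have := gain_pot h hR (b := k.c) 2 h.cq
    rw [hs] at this
    exact absurd this (lt_irrefl _)
  · have := gain_pot h hR (b := nxt k.q k.c) 3 nxt_ne
    rw [hs] at this
    exact absurd this (lt_irrefl _)
  · have h4 := congrArg Ctl.c hs
    simp only at h4
    have := lt_nxt (q := k.q) (c := k.c)
    omega
  · have e1 : ¬ Btw R x (nxt k.q k.c) := fun hb => h2 ⟨hP, hb⟩
    have e2 : ¬ nxt k.q k.c < x := fun hb => h3 ⟨hP, hb⟩
    unfold Btw at e1
    unfold nxt at e1 e2
    split_ifs at e1 e2 <;> omega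

lemma upd_E (R x : ℤ) (P : Prop) : k.E ≤ (upd k R x P).E := by
  unfold upd
  split_ifs
  · simp only [gain]; have := abs_nonneg (k.c - k.q); omega
  · simp only [gain]; have := abs_nonneg (nxt k.q k.c - k.q); omega
  · exact le_refl _
  · exact le_refl _

/-! ### Moves of the cops -/

/-- One real cop moves towards a point. -/
def mvp (p τ : Pt) : Pt := (mv 1 p.1 τ.1, mv 1 p.2 τ.2)

lemma near_mvp (p τ : Pt) : Near 1 p (mvp p τ) :=
  ⟨abs_mv (by norm_num), abs_mv (by norm_num)⟩

lemma tgt_lip (χ : ℤ × ℤ) (hχ : χ.2 = 1 ∨ χ.2 = -1) {P Q : Pt} (h : Near 1 P Q) :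
    Near 1 (tgt n χ P) (tgt n χ Q) := by
  obtain ⟨h1, h2⟩ := h
  refine ⟨?_, h2⟩
  rw [abs_le] at h1 ⊢
  simp only [tgt]
  rcases hχ with e | e <;> rw [e] <;> omega

lemma tgt_square (hn : 1 ≤ n) (χ : ℤ × ℤ) {P : Pt} (h : Strip n P) : Square n (tgt n χ P) := by
  refine ⟨?_, h⟩
  simp only [tgt]
  omega

lemma mvp_square {p τ : Pt} (hp : Square n p) (hτ : Square n τ) : Square n (mvp p τ) :=
  ⟨mv_mem (by norm_num) hp.1 hτ.1, mv_mem (by norm_num) hp.2 hτ.2⟩

lemma rc_sign (k : Ctl) (a : Fin 4) : (rc k a).2 = 1 ∨ (rc k a).2 = -1 := by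
  fin_cases a
  · left; rfl
  · right; rfl
  · simp only [rc, cc, sg]
    simp only [Fin.reduceFinMk, Matrix.cons_val]
    split_ifs <;> simp
  · simp only [rc, cc, sg]
    simp only [Fin.reduceFinMk, Matrix.cons_val]
    split_ifs <;> simp

/-- The positions of the crews after the move of the cops. -/
def mvAll (n : ℕ) (X : Fin N → Pt) (k : Ctl) (pos : Fin 4 → Fin N → Pt) : Fin 4 → Fin N → Pt :=
  fun i j => mvp (pos i j) (tgt n (rc k (k.π.symm i)) (X j))

lemma mvAll_stick {X' : Fin N → Pt} {a : Fin 4} (h : Inpl n X k pos a)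
    (hX : ∀ j, Near 1 (X j) (X' j)) : Inpl n X' k (mvAll n X' k pos) a := by
  intro j
  have h1 := tgt_lip (n := n) (rc k a) (rc_sign k a) (hX j)
  simp only [mvAll, Equiv.symm_apply_apply, mvp]
  rw [h j]
  rw [mv_stick h1.1, mv_stick h1.2]

lemma mvAll_inv {X' : Fin N → Pt} (h : Inv n X k R pos) (hX : ∀ j, Near 1 (X j) (X' j)) :
    Inv n X' k R (mvAll n X' k pos) :=
  ⟨h.toNum, mvAll_stick h.in0 hX, mvAll_stick h.in1 hX,
    fun hc => mvAll_stick (h.in2 hc) hX⟩

/-- If a lifted cop is on the lifted robber then a real cop is on the real robber. -/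
lemma catch_real (h : Inv n X k R pos) (hR : 1 ≤ R ∧ R ≤ n) {j : Fin N} {y : ℤ}
    (hj : X j = (k.E + |R - k.q|, y)) : ∃ i, pos i j = (R, y) := by
  rcases le_total k.q R with hq | hq
  · refine ⟨k.π 0, ?_⟩
    rw [h.in0 j, hj]
    simp only [tgt, rc, Matrix.cons_val_zero]
    rw [abs_of_nonneg (by omega)]
    refine Prod.ext ?_ rfl
    simp only
    omega
  · refine ⟨k.π 1, ?_⟩
    rw [h.in1 j, hj]
    simp only [tgt, rc, Matrix.cons_val_one, Matrix.cons_val_zero]
    rw [abs_of_nonpos (by omega)]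
    refine Prod.ext ?_ rfl
    simp only
    omega

end Pool.Agent.Lib.P0cd
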