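import Pool.Agent.Lib.P0cd.Defs

/-!
Strategies given by state machines, the pursuit lemma on a segment, charts.
-/

namespace Pool.Agent.Lib.P0cd

open Filter

/-- A team of cops driven by a state machine which reads the positions of the robber. -/
structure Machine (ι : Type) where
  State : Type
  init : State
  step : State → Pt → State
  out : State → ι → Pt

namespace Machine

variable {ι : Type} (M : Machine ι)

/-- The state after the robber has been at `r 0, …, r (t-1)`. -/
def run (r : ℕ → Pt) : ℕ → M.State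
  | 0 => M.init
  | t + 1 => M.step (run r t) (r t)

/-- The strategy of the machine. -/
def strategy : CopStrategy ι := fun l => M.out (l.foldl M.step M.init)

lemma copsAt_strategy (r : ℕ → Pt) (t : ℕ) : copsAt M.strategy r t = M.out (M.run r t) := by
  have h : ∀ t, ((List.range t).map r).foldl M.step M.init = M.run r t := by
    intro t
    induction t with
    | zero => rfl
    | succ t ih => rw [List.range_succ, List.map_append, List.foldl_append, ih]; rfl
  unfold copsAt strategy
  rw [h]

end Machine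

/-- Move from `p` towards `τ` by at most `k`. -/
def mv (k p τ : ℤ) : ℤ := p + max (-k) (min k (τ - p))

lemma mv_stick {k τ τ' : ℤ} (h : |τ' - τ| ≤ k) : mv k τ τ' = τ' := by
  have := abs_le.1 h
  unfold mv; omega

lemma abs_mv {k p τ : ℤ} (hk : 0 ≤ k) : |mv k p τ - p| ≤ k := by
  rw [abs_le]; unfold mv; omega

lemma mv_mem {k p τ a b : ℤ} (hk : 0 ≤ k) (hp : a ≤ p ∧ p ≤ b) (hτ : a ≤ τ ∧ τ ≤ b) :
    a ≤ mv k p τ ∧ mv k p τ ≤ b := by
  unfold mv; omega

/-- The pursuit lemma: a pursuer which has not met its target has always moved in the same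
direction at full speed. -/
lemma pursuit {k : ℤ} (hk : 0 ≤ k) {p τ : ℕ → ℤ} (hp : ∀ t, p (t + 1) = mv k (p t) (τ (t + 1)))
    (hτ : ∀ t, |τ (t + 1) - τ t| ≤ k) (t : ℕ) :
    p t = τ t ∨ (p t = p 0 + k * t ∧ p t < τ t) ∨ (p t = p 0 - k * t ∧ τ t < p t) := by
  induction t with
  | zero =>
    rcases lt_trichotomy (p 0) (τ 0) with h | h | h
    · right; left; simp [h]
    · left; exact h
    · right; right; simp [h]
  | succ t ih =>
    have h2 := abs_le.1 (hτ t)
    have h3 := hp t
    unfold mv at h3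
    have e1 : k * ((t + 1 : ℕ) : ℤ) = k * t + k := by push_cast; ring
    rw [e1]
    rcases ih with h | ⟨h, h'⟩ | ⟨h, h'⟩ <;> omega

/-- The pursuer meets its target if both stay on a segment and the speed is positive. -/
lemma pursuit_eventually {p τ : ℕ → ℤ} {n : ℤ}
    (hp : ∀ t, p (t + 1) = mv 1 (p t) (τ (t + 1)))
    (hτ : ∀ t, |τ (t + 1) - τ t| ≤ 1) (hn : ∀ t, 1 ≤ τ t ∧ τ t ≤ n) :
    ∀ᶠ t in atTop, p t = τ t := by
  rw [eventually_atTop]
  refine ⟨(n - p 0).toNat + (p 0).toNat + 1, fun t ht => ?_⟩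
  rcases pursuit (by norm_num) hp hτ t with h | ⟨h, h'⟩ | ⟨h, h'⟩
  · exact h
  · have := hn t; omega
  · have := hn t; omega

/-- A monotone bounded integer sequence is eventually constant. -/
lemma eventually_const {f : ℕ → ℤ} (hf : ∀ t, f t ≤ f (t + 1)) {k : ℤ} (hk : ∀ t, f t ≤ k) :
    ∃ T, ∀ t, T ≤ t → f (t + 1) = f t := by
  by_contra hcon
  push Not at hcon
  have hmono : Monotone f := monotone_nat_of_le_succ hf
  have key : ∀ m : ℕ, ∃ t, f 0 + m ≤ f t := by
    intro m
    induction m with
    | zero => exact ⟨0, by simp⟩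
    | succ m ih =>
      obtain ⟨t, ht⟩ := ih
      obtain ⟨u, hu, hne⟩ := hcon t
      refine ⟨u + 1, ?_⟩
      have h1 := hmono hu
      have h2 := hf u
      push_cast
      omega
  obtain ⟨t, ht⟩ := key ((k - f 0).toNat + 1)
  have := hk t
  omega

/-! ### Charts -/

/-- The sign of `b - q`. -/
def sg (q b : ℤ) : ℤ := if q < b then 1 else -1

/-- The chart of a crew standing by at the column `b` for the pivot `(q, E)`; a chart `(a, s)`
stands for `x ↦ a + s x`. -/
def cc (q E b : ℤ) : ℤ × ℤ := (E + |b - q| + sg q b * b, -sg q b)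

/-- The next column of the sweep. -/
def nxt (q c : ℤ) : ℤ := if c + 1 = q then c + 2 else c + 1

/-- The state of the controller: pivot `q`, floor `E`, barrier column `c` (`0` if there is none),
and the permutation which attaches crews to the four roles: `0` and `1` are the two
pivot crews, `2` is the barrier crew, `3` is the crew in preparation. -/
structure Ctl where
  q : ℤ
  E : ℤ
  c : ℤ
  π : Equiv.Perm (Fin 4)

/-- The charts of the four roles. -/
def rc (k : Ctl) : Fin 4 → ℤ × ℤ :=
  ![(k.E - k.q, 1), (k.E + k.q, -1), cc k.q k.E k.c, cc k.q k.E (nxt k.q k.c)]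

/-- The target on the board of a lifted cop `P` for the chart `χ`. -/
def tgt (n : ℕ) (χ : ℤ × ℤ) (P : Pt) : Pt := (max 1 (min (n : ℤ) (χ.2 * (P.1 - χ.1))), P.2)

/-- The crew of role `a` is in place. -/
def Inpl {N : ℕ} (n : ℕ) (X : Fin N → Pt) (k : Ctl) (pos : Fin 4 → Fin N → Pt) (a : Fin 4) :
    Prop :=
  ∀ j, pos (k.π a) j = tgt n (rc k a) (X j)

/-- `b` is between `R` and `x`. -/
def Btw (R x b : ℤ) : Prop := (R ≤ b ∧ b ≤ x) ∨ (x ≤ b ∧ b ≤ R)

/-- Re-pivoting at `b` with the crew of role `x`. -/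
def gain (k : Ctl) (b : ℤ) (x : Fin 4) : Ctl :=
  ⟨b, k.E + |b - k.q|, 0, k.π * Equiv.swap (if k.q < b then 1 else 0) x⟩

open Classical in
/-- The update of the controller when the robber moves from column `R` to column `x`; `inD` says
whether the crew in preparation is in place. -/
noncomputable def upd (k : Ctl) (R x : ℤ) (inD : Prop) : Ctl :=
  if 1 ≤ k.c ∧ x ≤ k.c then gain k k.c 2
  else if inD ∧ Btw R x (nxt k.q k.c) then gain k (nxt k.q k.c) 3
  else if inD ∧ nxt k.q k.c < x then ⟨k.q, k.E, nxt k.q k.c, k.π * Equiv.swap 2 3⟩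
  else k

/-- The numerical part of the invariant of the controller. -/
structure Num (k : Ctl) (R : ℤ) : Prop where
  q1 : 1 ≤ k.q
  c0 : 0 ≤ k.c
  cR : k.c < R
  cq : k.c ≠ k.q

/-- The invariant of the controller, the crews and the lifted cops. -/
structure Inv {N : ℕ} (n : ℕ) (X : Fin N → Pt) (k : Ctl) (R : ℤ)
    (pos : Fin 4 → Fin N → Pt) : Prop extends Num k R where
  in0 : Inpl n X k pos 0
  in1 : Inpl n X k pos 1
  in2 : 1 ≤ k.c → Inpl n X k pos 2

end Pool.Agent.Lib.P0cd
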