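import Pool.Agent.Lib.P0cd.Steps

/-!
Four crews of `N` cops which play the Rugby strategy against the lifted robber: every robber
which they never catch has eventually constant first coordinate.
-/

namespace Pool.Agent.Lib.P0cd

open Filter

variable {N : ℕ}

/-- The controller `K t`, the lifted row `W t`, the crews `P t` and the lifted robber `ρ t` along a
play against the real robber `r`. -/
structure Run (n : ℕ) (S : CopStrategy (Fin N)) (C y0 : ℤ) (r : ℕ → Pt) (K : ℕ → Ctl)
    (W : ℕ → ℤ) (P : ℕ → Fin 4 → Fin N → Pt) (ρ : ℕ → Pt) : Prop where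
  k0 : K 0 = ⟨(r 0).1, -C, 0, 1⟩
  k1 : ∀ t, K (t + 1) =
    upd (K t) (r t).1 (r (t + 1)).1 (Inpl n (copsAt S ρ (t + 1)) (K t) (P (t + 1)) 3)
  w0 : W 0 = y0
  w1 : ∀ t, W (t + 1) = mv 2 (W t) (r (t + 1)).2
  p0 : ∀ i j, P 0 i j = (if i = 0 then (n : ℤ) else 1, (S [] j).2)
  p1 : ∀ t, P (t + 1) = mvAll n (copsAt S ρ (t + 1)) (K t) (P t)
  hρ : ∀ t, ρ t = ((K t).E + |(r t).1 - (K t).q|, W t)

section Play

variable {n : ℕ} {S : CopStrategy (Fin N)} {C y0 : ℤ} {r : ℕ → Pt} {K : ℕ → Ctl}
  {W : ℕ → ℤ} {P : ℕ → Fin 4 → Fin N → Pt} {ρ : ℕ → Pt}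

lemma run_num (h : Run n S C y0 r K W P ρ) (hr : RobberPath (Square n) r) (t : ℕ) :
    Num (K t) (r t).1 := by
  induction t with
  | zero =>
    rw [h.k0]
    have := (hr.1 0).1
    exact ⟨this.1, le_refl _, by simp only; omega, by simp only; omega⟩
  | succ t ih =>
    rw [h.k1]
    exact upd_num ih (hr.1 (t + 1)).1.1 _

lemma run_start (h : Run n S C y0 r K W P ρ) : ρ 0 = (-C, y0) := by
  rw [h.hρ, h.k0, h.w0]
  simp

lemma run_row (h : Run n S C y0 r K W P ρ) (hr : RobberPath (Square n) r)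
    (hy : 1 ≤ y0 ∧ y0 ≤ n) (t : ℕ) : 1 ≤ W t ∧ W t ≤ n := by
  induction t with
  | zero => rw [h.w0]; exact hy
  | succ t ih =>
    rw [h.w1]
    exact mv_mem (by norm_num) ih (hr.1 (t + 1)).2

lemma run_path (h : Run n S C y0 r K W P ρ) (hr : RobberPath (Square n) r)
    (hy : 1 ≤ y0 ∧ y0 ≤ n) : RobberPath (Strip n) ρ := by
  refine ⟨fun t => ?_, fun t => ⟨?_, ?_⟩⟩
  · rw [h.hρ]
    exact run_row h hr hy t
  · rw [h.hρ, h.hρ, h.k1]
    exact upd_dist (run_num h hr t) (hr.2 t).1 _
  · rw [h.hρ, h.hρ, h.w1]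
    exact abs_mv (by norm_num)

lemma run_mid0 (h : Run n S C y0 r K W P ρ) (hr : RobberPath (Square n) r)
    (hC : ∀ i, -C + 2 * n ≤ (S [] i).1) : Inv n (copsAt S ρ 0) (K 0) (r 0).1 (P 0) := by
  have hnum := run_num h hr 0
  have hx := (hr.1 0).1
  have e0 : copsAt S ρ 0 = S [] := rfl
  rw [h.k0] at hnum ⊢
  rw [e0]
  refine ⟨hnum, ?_, ?_, fun h1 => absurd h1 (by norm_num)⟩
  · intro j
    have := hC j
    rw [h.p0]
    simp only [tgt, rc, Matrix.cons_val_zero, Equiv.Perm.coe_one, id_eq, if_true]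
    refine Prod.ext ?_ rfl
    simp only
    omega
  · intro j
    have := hC j
    rw [h.p0]
    simp only [tgt, rc, Matrix.cons_val_one, Matrix.cons_val_zero, Equiv.Perm.coe_one, id_eq]
    refine Prod.ext ?_ rfl
    simp only [one_ne_zero, if_false]
    omega

lemma run_mid (h : Run n S C y0 r K W P ρ) (hr : RobberPath (Square n) r)
    (hC : ∀ i, -C + 2 * n ≤ (S [] i).1) (hS : LegalAgainst (Strip n) S ρ) (t : ℕ) :
    Inv n (copsAt S ρ t) (K t) (r t).1 (P t) := by
  induction t with
  | zero => exact run_mid0 h hr hC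
  | succ t ih =>
    have h1 := mvAll_inv ih (fun j => hS.2 t j)
    rw [← h.p1] at h1
    have h2 := upd_inv h1 (hr.1 (t + 1)).1.1
    rw [← h.k1] at h2
    exact h2

lemma run_post (h : Run n S C y0 r K W P ρ) (hr : RobberPath (Square n) r)
    (hC : ∀ i, -C + 2 * n ≤ (S [] i).1) (hS : LegalAgainst (Strip n) S ρ) (t : ℕ) :
    Inv n (copsAt S ρ (t + 1)) (K t) (r t).1 (P (t + 1)) := by
  have h1 := mvAll_inv (run_mid h hr hC hS t) (fun j => hS.2 t j)
  rwa [← h.p1] at h1

lemma run_square (h : Run n S C y0 r K W P ρ) (hn : 1 ≤ n)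
    (hS : LegalAgainst (Strip n) S ρ) (t : ℕ) (i : Fin 4) (j : Fin N) : Square n (P t i j) := by
  induction t with
  | zero =>
    rw [h.p0]
    refine ⟨?_, hS.1 0 j⟩
    simp only
    split_ifs <;> omega
  | succ t ih =>
    rw [h.p1]
    exact mvp_square ih (tgt_square hn _ (hS.1 (t + 1) j))

lemma run_near (h : Run n S C y0 r K W P ρ) (t : ℕ) (i : Fin 4) (j : Fin N) :
    Near 1 (P t i j) (P (t + 1) i j) := by
  rw [h.p1]
  exact near_mvp _ _

/-- As long as the lifted row is not the real row, the time is small. -/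
lemma run_early (h : Run n S C y0 r K W P ρ) (hr : RobberPath (Square n) r)
    (hy : 1 ≤ y0 ∧ y0 ≤ n) {t : ℕ} (ht : W t ≠ (r t).2) : 2 * (t : ℤ) ≤ n - 1 := by
  have h0 := run_row h hr hy t
  have h1 := h.w0
  rcases pursuit (k := 2) (p := W) (τ := fun t => (r t).2) (by norm_num) h.w1
    (fun t => (hr.2 t).2) t with h2 | ⟨h2, _⟩ | ⟨h2, _⟩
  · exact absurd h2 ht
  · omega
  · omega

lemma run_far (h : Run n S C y0 r K W P ρ) (hr : RobberPath (Square n) r)
    (hy : 1 ≤ y0 ∧ y0 ≤ n) (hC : ∀ i, -C + 2 * n ≤ (S [] i).1)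
    (hS : LegalAgainst (Strip n) S ρ) (t : ℕ) (j : Fin N) :
    (ρ t).1 ≤ -C + 2 * t ∧ -C + 2 * n - t ≤ (copsAt S ρ t j).1 := by
  induction t with
  | zero =>
    rw [run_start h]
    have := hC j
    have e0 : copsAt S ρ 0 = S [] := rfl
    rw [e0]
    exact ⟨by simp, by simpa using this⟩
  | succ t ih =>
    have h1 := abs_le.1 ((run_path h hr hy).2 t).1
    have h2 := abs_le.1 (hS.2 t j).1
    push_cast
    constructor <;> omega

/-- If the lifted robber is caught then the real robber is caught by some crew. -/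
lemma run_caught (h : Run n S C y0 r K W P ρ) (hr : RobberPath (Square n) r)
    (hy : 1 ≤ y0 ∧ y0 ≤ n) (hC : ∀ i, -C + 2 * n ≤ (S [] i).1)
    (hS : LegalAgainst (Strip n) S ρ) (hc : Caught S ρ) :
    ∃ t i j, P t i j = r t ∨ P (t + 1) i j = r t := by
  obtain ⟨t, j, hj⟩ := hc
  have hx := (hr.1 t).1
  have hn : (1 : ℤ) ≤ n := by omega
  by_cases hW : W t = (r t).2
  · rw [h.hρ t] at hj
    rcases hj with hj | hj
    · obtain ⟨i, hi⟩ := catch_real (run_mid h hr hC hS t) hx hj
      refine ⟨t, i, j, Or.inl ?_⟩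
      rw [hi, hW]
    · obtain ⟨i, hi⟩ := catch_real (run_post h hr hC hS t) hx hj
      refine ⟨t, i, j, Or.inr ?_⟩
      rw [hi, hW]
  · exfalso
    have h1 := run_early h hr hy hW
    have h2 := run_far h hr hy hC hS t j
    have h3 := run_far h hr hy hC hS (t + 1) j
    have h4 := h3.2
    push_cast at h4
    rcases hj with hj | hj
    · rw [hj] at h2; omega
    · rw [hj] at h4; omega

/-- If the lifted robber has bounded first coordinate then the real robber has eventually constant
first coordinate. -/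
lemma run_const (h : Run n S C y0 r K W P ρ) (hr : RobberPath (Square n) r)
    (hS : LegalAgainst (Strip n) S ρ)
    {b : ℤ} (hb : ∀ t, (ρ t).1 ≤ b) : ∃ q : ℤ, ∀ᶠ t in atTop, (r t).1 = q := by
  have hE : ∀ t, (K t).E ≤ b := by
    intro t
    have h1 := hb t
    rw [h.hρ] at h1
    have := abs_nonneg ((r t).1 - (K t).q)
    simp only at h1
    omega
  have hpot : ∀ t, K (t + 1) = K t ∨ pot n (K t) < pot n (K (t + 1)) := by
    intro t
    rw [h.k1]
    exact upd_pot (run_num h hr t) (hr.1 t).1.2 _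
  have hbound : ∀ t, pot n (K t) ≤ b * (n + 1) + n := by
    intro t
    have h1 := hE t
    have h2 := (run_num h hr t).cR
    have h3 := (hr.1 t).1
    unfold pot
    nlinarith
  obtain ⟨T, hT⟩ := eventually_const (f := fun t => pot n (K t))
    (fun t => by rcases hpot t with h1 | h1
                 · rw [h1]
                 · exact h1.le) hbound
  have hK : ∀ t, K (T + t) = K T := by
    intro t
    induction t with
    | zero => rfl
    | succ t ih =>
      rcases hpot (T + t) with h1 | h1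
      · rw [← add_assoc, h1, ih]
      · have := hT (T + t) (by omega)
        omega
  -- the crew in preparation is eventually in place
  have hin : ∀ j, ∀ᶠ t in atTop, P (T + t) ((K T).π 3) j =
      tgt n (rc (K T) 3) (copsAt S ρ (T + t) j) := by
    intro j
    have hmove : ∀ t, P (T + (t + 1)) ((K T).π 3) j = mvp (P (T + t) ((K T).π 3) j)
        (tgt n (rc (K T) 3) (copsAt S ρ (T + (t + 1)) j)) := by
      intro t
      rw [← add_assoc, h.p1, hK]
      simp only [mvAll, Equiv.symm_apply_apply]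
    have hlip : ∀ t, Near 1 (tgt n (rc (K T) 3) (copsAt S ρ (T + t) j))
        (tgt n (rc (K T) 3) (copsAt S ρ (T + (t + 1)) j)) := by
      intro t
      exact tgt_lip _ (rc_sign _ _) (hS.2 (T + t) j)
    have hn : 1 ≤ n := by
      have := (hr.1 0).1
      omega
    have hsq : ∀ t, Square n (tgt n (rc (K T) 3) (copsAt S ρ (T + t) j)) :=
      fun t => tgt_square hn _ (hS.1 _ _)
    have e1 := pursuit_eventually (n := n)
      (p := fun t => (P (T + t) ((K T).π 3) j).1)
      (τ := fun t => (tgt n (rc (K T) 3) (copsAt S ρ (T + t) j)).1)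
      (fun t => by rw [hmove]; rfl) (fun t => (hlip t).1) (fun t => (hsq t).1)
    have e2 := pursuit_eventually (n := n)
      (p := fun t => (P (T + t) ((K T).π 3) j).2)
      (τ := fun t => (tgt n (rc (K T) 3) (copsAt S ρ (T + t) j)).2)
      (fun t => by rw [hmove]; rfl) (fun t => (hlip t).2) (fun t => (hsq t).2)
    filter_upwards [e1, e2] with t h1 h2
    exact Prod.ext h1 h2
  have hin2 : ∀ᶠ t in atTop, ∀ j, P (T + t) ((K T).π 3) j =
      tgt n (rc (K T) 3) (copsAt S ρ (T + t) j) := eventually_all.2 hin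
  obtain ⟨T2, hT2⟩ := eventually_atTop.1 hin2
  refine ⟨(K T).q, eventually_atTop.2 ⟨T + T2 + 1, fun t ht => ?_⟩⟩
  obtain ⟨u, rfl⟩ : ∃ u, t = T + u + 1 := ⟨t - T - 1, by omega⟩
  have h1 := h.k1 (T + u)
  have h2 : K (T + u + 1) = K T := by rw [add_assoc]; exact hK _
  rw [h2, hK] at h1
  have h3 : Inpl n (copsAt S ρ (T + u + 1)) (K T) (P (T + u + 1)) 3 := by
    intro j
    have := hT2 (u + 1) (by omega) j
    rwa [← add_assoc] at this
  have h4 := run_num h hr (T + u)
  rw [hK] at h4
  exact upd_stay h4 h3 (hr.1 (T + u)).1.2 (hr.1 (T + u + 1)).1.1 h1.symm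

end Play

/-! ### The machine -/

/-- The state of the team. -/
structure XS (N : ℕ) where
  hist : List Pt
  ctl : Ctl
  R : ℤ
  V : ℤ
  pos : Fin 4 → Fin N → Pt

open Classical in
/-- The controller after reading the position `x` of the robber. -/
noncomputable def nextCtl (n : ℕ) (S : CopStrategy (Fin N)) (C : ℤ) (s : XS N) (x : Pt) : Ctl :=
  if s.hist = [] then ⟨x.1, -C, 0, 1⟩
  else upd s.ctl s.R x.1 (Inpl n (S s.hist) s.ctl s.pos 3)

open Classical in
/-- The lifted row after reading the position `x` of the robber. -/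
noncomputable def nextRow (y0 : ℤ) (s : XS N) (x : Pt) : ℤ :=
  if s.hist = [] then y0 else mv 2 s.V x.2

/-- The history of the lifted robber after reading the position `x` of the robber. -/
noncomputable def nextHist (n : ℕ) (S : CopStrategy (Fin N)) (C y0 : ℤ) (s : XS N) (x : Pt) :
    List Pt :=
  s.hist ++ [((nextCtl n S C s x).E + |x.1 - (nextCtl n S C s x).q|, nextRow y0 s x)]

/-- The team as a state machine. -/
noncomputable def xmachine (n : ℕ) (S : CopStrategy (Fin N)) (C y0 : ℤ) :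
    Machine (Fin 4 × Fin N) where
  State := XS N
  init := ⟨[], ⟨1, 0, 0, 1⟩, 0, 0, fun i j => (if i = 0 then (n : ℤ) else 1, (S [] j).2)⟩
  step s x := ⟨nextHist n S C y0 s x, nextCtl n S C s x, x.1, nextRow y0 s x,
    mvAll n (S (nextHist n S C y0 s x)) (nextCtl n S C s x) s.pos⟩
  out s i := s.pos i.1 i.2

section

variable (n : ℕ) (S : CopStrategy (Fin N)) (C y0 : ℤ) (r : ℕ → Pt)

/-- The state at time `t`. -/
noncomputable def st (t : ℕ) : XS N := (xmachine n S C y0).run r t

/-- The lifted robber. -/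
noncomputable def lift (t : ℕ) : Pt :=
  ((st n S C y0 r (t + 1)).ctl.E + |(r t).1 - (st n S C y0 r (t + 1)).ctl.q|,
    (st n S C y0 r (t + 1)).V)

lemma st_hist (t : ℕ) : (st n S C y0 r t).hist = (List.range t).map (lift n S C y0 r) := by
  induction t with
  | zero => rfl
  | succ t ih =>
    rw [List.range_succ, List.map_append, ← ih]
    rfl

lemma st_run : Run n S C y0 r (fun t => (st n S C y0 r (t + 1)).ctl)
    (fun t => (st n S C y0 r (t + 1)).V) (fun t => (st n S C y0 r t).pos)
    (lift n S C y0 r) := by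
  have hne : ∀ t, (st n S C y0 r (t + 1)).hist ≠ [] := by
    intro t ht
    rw [st_hist] at ht
    simp at ht
  refine ⟨?_, ?_, ?_, ?_, fun i j => rfl, ?_, fun t => rfl⟩
  · change nextCtl n S C (st n S C y0 r 0) (r 0) = _
    unfold nextCtl
    exact if_pos rfl
  · intro t
    change nextCtl n S C (st n S C y0 r (t + 1)) (r (t + 1)) = _
    unfold nextCtl
    rw [if_neg (hne t), st_hist]
    rfl
  · change nextRow y0 (st n S C y0 r 0) (r 0) = _
    unfold nextRow
    exact if_pos rfl
  · intro t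
    change nextRow y0 (st n S C y0 r (t + 1)) (r (t + 1)) = _
    unfold nextRow
    rw [if_neg (hne t)]
  · intro t
    change mvAll n (S (st n S C y0 r (t + 1)).hist) _ _ = _
    rw [st_hist]
    rfl

end

/-- Four crews of `N` cops: every robber which they do not catch has eventually constant first
coordinate. -/
theorem xteam {n : ℕ} {y0 : ℤ} (hy : 1 ≤ y0 ∧ y0 ≤ n) (h : CopsWinRugbyFrom n y0 N) :
    ∃ T : CopStrategy (Fin 4 × Fin N), ∀ r, RobberPath (Square n) r →
      LegalAgainst (Square n) T r ∧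
        (Caught T r ∨ ∃ q : ℤ, ∀ᶠ t in atTop, (r t).1 = q) := by
  obtain ⟨S, C, hC, hS⟩ := h
  refine ⟨(xmachine n S C y0).strategy, fun r hr => ?_⟩
  have hrun := st_run n S C y0 r
  have hpath := run_path hrun hr hy
  obtain ⟨hleg, hwin⟩ := hS _ hpath (run_start hrun)
  have hpos : ∀ t i, copsAt (xmachine n S C y0).strategy r t i =
      (st n S C y0 r t).pos i.1 i.2 := by
    intro t i
    rw [Machine.copsAt_strategy]
    rfl
  have hn : 1 ≤ n := by omega
  refine ⟨⟨fun t i => ?_, fun t i => ?_⟩, ?_⟩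
  · rw [hpos]
    exact run_square hrun hn hleg t i.1 i.2
  · rw [hpos, hpos]
    exact run_near hrun t i.1 i.2
  · rcases hwin with hc | ⟨b, hb⟩
    · left
      obtain ⟨t, i, j, hij⟩ := run_caught hrun hr hy hC hleg hc
      refine ⟨t, (i, j), ?_⟩
      rw [hpos, hpos]
      exact hij
    · right
      exact run_const hrun hr hleg hb

end Pool.Agent.Lib.P0cd
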